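import Pool.Agent.K1H5.PP.Stm2

set_option autoImplicit false

/-! Project PP (helper5), piece BR: modules and idempotent matrices. -/

namespace Pool.Agent.K1H75.PP

open MonoidAlgebra Pool.Agent.K1H5.PP

universe u v

theorem t_BR1' (hVK : S_VK.{u}) : S_BR1'.{u, v} := by
  intro G _ P _ _ hfin hproj hnt
  obtain ⟨n, f, hf⟩ := Module.Finite.exists_fin' (MonoidAlgebra ℤ G) P
  obtain ⟨s, hs⟩ := Module.projective_lifting_property f (LinearMap.id : P →ₗ[_] P) hf
  have hfs : ∀ p, f (s p) = p := fun p => LinearMap.congr_fun hs p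
  have key : ∀ (x : Fin n → MonoidAlgebra ℤ G) (j : Fin n),
      s (f x) j = ∑ i, x i * s (f (Pi.single i 1)) j := by
    intro x j
    have h1 : x = ∑ i, x i • (Pi.single i 1 : Fin n → MonoidAlgebra ℤ G) := by
      funext j
      rw [Finset.sum_apply]
      simp only [Pi.smul_apply, smul_eq_mul, Pi.single_apply, mul_ite, mul_one, mul_zero]
      rw [Finset.sum_ite_eq]
      simp
    conv_lhs => rw [h1]
    rw [map_sum, map_sum, Finset.sum_apply]
    refine Finset.sum_congr rfl fun i _ => ?_
    rw [map_smul, map_smul, Pi.smul_apply, smul_eq_mul]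
  refine ⟨n, Matrix.of fun i j => s (f (Pi.single i 1)) j, ?_, ?_, ?_⟩
  · ext1 i j
    rw [Matrix.mul_apply]
    have h1 := key (s (f (Pi.single i 1))) j
    rw [hfs] at h1
    exact h1.symm
  · intro h0
    obtain ⟨p, hp⟩ := exists_ne (0 : P)
    apply hp
    obtain ⟨x, rfl⟩ := hf p
    rw [← hfs (f x)]
    have h1 : s (f x) = 0 := by
      funext j
      rw [key]
      refine Finset.sum_eq_zero fun i _ => ?_
      have h2 : s (f (Pi.single i 1)) j = 0 := congrFun (congrFun h0 i) j
      rw [h2, mul_zero]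
    rw [h1, map_zero]
  · intro K hgen i j
    rw [hVK G K]
    show s (f (Pi.single i 1)) j ∈ _
    generalize f (Pi.single i 1) = p
    have hp := hgen p
    induction hp using AddSubgroup.closure_induction with
    | mem x hx =>
      obtain ⟨k, hk, z, rfl⟩ := hx
      refine AddSubgroup.subset_closure ⟨k, hk, s z j, ?_⟩
      rw [map_sub, map_smul, Pi.sub_apply, Pi.smul_apply, smul_eq_mul]
    | zero =>
      rw [map_zero]
      exact zero_mem _
    | add x y _ _ hx hy =>
      rw [map_add, Pi.add_apply]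
      exact add_mem hx hy
    | neg x _ hx =>
      rw [map_neg, Pi.neg_apply]
      exact neg_mem hx

theorem t_BR1 (hVK : S_VK.{u}) : S_BR1.{u, v} := by
  intro G _ P _ _ hfin hproj hnt hgen
  obtain ⟨n, E, h1, h2, h3⟩ := t_BR1' hVK G P hfin hproj hnt
  exact ⟨n, E, h1, h2, h3 ⊤ hgen⟩

theorem t_BR2' (hVK : S_VK.{u}) (hVN : S_VN.{u}) : S_BR2'.{u} := by
  intro G _ n E hE hE0
  obtain ⟨T, hT⟩ : ∃ T : (Fin n → MonoidAlgebra ℤ G) →ₗ[MonoidAlgebra ℤ G]
      (Fin n → MonoidAlgebra ℤ G), ∀ x j, T x j = ∑ i, x i * E i j :=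
    ⟨Matrix.vecMulLinear E, fun x j => rfl⟩
  have hTT : ∀ x, T (T x) = T x := by
    intro x
    funext j
    rw [hT (T x), hT x]
    have h1 : ∀ k, T x k * E k j = ∑ i, x i * (E i k * E k j) := by
      intro k
      rw [hT, Finset.sum_mul]
      exact Finset.sum_congr rfl fun i _ => mul_assoc _ _ _
    rw [Finset.sum_congr rfl fun k _ => h1 k, Finset.sum_comm]
    refine Finset.sum_congr rfl fun i _ => ?_
    rw [← Finset.mul_sum]
    congr 1
    have h2 : (E * E) i j = E i j := by rw [hE]
    rw [Matrix.mul_apply] at h2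
    exact h2
  have hsum : ∀ x : Fin n → MonoidAlgebra ℤ G,
      x = ∑ i, x i • (Pi.single i 1 : Fin n → MonoidAlgebra ℤ G) := by
    intro x
    funext j
    rw [Finset.sum_apply]
    simp only [Pi.smul_apply, smul_eq_mul, Pi.single_apply, mul_ite, mul_one, mul_zero]
    rw [Finset.sum_ite_eq]
    simp
  have hfix : ∀ x : LinearMap.range T, T (x : Fin n → MonoidAlgebra ℤ G) = x := by
    rintro ⟨x, y, rfl⟩
    exact hTT y
  refine ⟨LinearMap.range T, inferInstance, inferInstance, inferInstance, ?_, ?_, ?_⟩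
  · refine Module.Projective.of_split (LinearMap.range T).subtype T.rangeRestrict ?_
    ext x : 1
    exact Subtype.ext (hfix x)
  · have h1 : ∃ i j, E i j ≠ 0 := by
      by_contra hc
      push Not at hc
      exact hE0 (by funext i j; exact hc i j)
    obtain ⟨i, j, hij⟩ := h1
    refine ⟨⟨T (Pi.single i 1), LinearMap.mem_range_self _ _⟩, 0, fun h0 => hij ?_⟩
    have h2 : T (Pi.single i 1) j = 0 := congrFun (congrArg Subtype.val h0) j
    rw [hT] at h2
    rw [← h2]
    simp [Pi.single_apply]
  · intro K hK hV x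
    have hq : ∀ (a : MonoidAlgebra ℤ G) (q : LinearMap.range T), Van K a →
        a • q ∈ AddSubgroup.closure {y : LinearMap.range T | ∃ k ∈ K, ∃ z : LinearMap.range T,
          y = (single k (1 : ℤ) : MonoidAlgebra ℤ G) • z - z} := by
      intro a q ha
      rw [hVK G K] at ha
      induction ha using AddSubgroup.closure_induction with
      | mem a ha =>
        obtain ⟨k, hk, z, rfl⟩ := ha
        refine AddSubgroup.subset_closure ⟨k, hk, z • q, ?_⟩
        have e1 : ((single k (1 : ℤ) : MonoidAlgebra ℤ G) * z - z) • q =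
            ((single k (1 : ℤ) : MonoidAlgebra ℤ G) * z) • q - z • q := by
          have e3 : (-z) • q = -(z • q) := neg_smul z q
          have e4 : (single k (1 : ℤ) : MonoidAlgebra ℤ G) * z - z =
            (single k (1 : ℤ) : MonoidAlgebra ℤ G) * z + -z := sub_eq_add_neg _ _
          rw [e4, add_smul, e3, ← sub_eq_add_neg]
        have e2 : ((single k (1 : ℤ) : MonoidAlgebra ℤ G) * z) • q =
            (single k (1 : ℤ) : MonoidAlgebra ℤ G) • z • q := mul_smul _ _ _
        rw [e1, e2]
      | zero =>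
        rw [zero_smul]
        exact zero_mem _
      | add a b _ _ ha hb =>
        rw [add_smul]
        exact add_mem ha hb
      | neg a _ ha =>
        have e1 : (-a) • q = -(a • q) := neg_smul a q
        rw [e1]
        exact neg_mem ha
    have hx : ∀ j, Van K ((x : Fin n → MonoidAlgebra ℤ G) j) := by
      intro j
      have h1 : (x : Fin n → MonoidAlgebra ℤ G) j =
          ∑ i, (x : Fin n → MonoidAlgebra ℤ G) i * E i j := by
        conv_lhs => rw [← hfix x]
        exact hT _ _
      rw [hVN G K, h1, map_sum]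
      refine Finset.sum_eq_zero fun i _ => ?_
      have h2 := (hVN G K (E i j)).1 (hV i j)
      rw [map_mul, h2, mul_zero]
    have hxs : x = ∑ j, (x : Fin n → MonoidAlgebra ℤ G) j •
        (⟨T (Pi.single j 1), LinearMap.mem_range_self _ _⟩ : LinearMap.range T) := by
      apply Subtype.ext
      have h3 : ((∑ j, (x : Fin n → MonoidAlgebra ℤ G) j •
        (⟨T (Pi.single j 1), LinearMap.mem_range_self _ _⟩ : LinearMap.range T) :
          LinearMap.range T) : Fin n → MonoidAlgebra ℤ G) =
          ∑ j, (x : Fin n → MonoidAlgebra ℤ G) j • T (Pi.single j 1) := by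
        rw [← Submodule.subtype_apply, map_sum]
        rfl
      rw [h3]
      conv_lhs => rw [← hfix x, hsum (x : Fin n → MonoidAlgebra ℤ G)]
      rw [map_sum]
      exact Finset.sum_congr rfl fun j _ => map_smul T _ _
    rw [hxs]
    exact sum_mem fun j _ => hq _ _ (hx j)

end Pool.Agent.K1H75.PP
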